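import Pool.Agent.Helper59.RD.St.B2a

/-!
# RD-B2b: a real multiplicative seminorm centred at a prime `P` and vanishing on a prime `Q < P`

`F` = fraction field of `R ⧸ Q`; `A` = the range of `R → F` (a subring, isomorphic to `R ⧸ Q`);
the local subring of `F` of `A` at the image of `P` (`LocalSubring.ofPrime`) is dominated by a
valuation subring `B` (`LocalSubring.exists_le_valuationSubring`).  Let `v` be its valuation and
`w f = v (image of f)`; then `w f ≤ 1` for all `f : R`, `w f < 1` for `f ∈ P`, `w f = 1` for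
`f ∉ P` (a unit of the local subring), `w f = 0` iff `f ∈ Q`.  Let `g` be the maximum of the
nonzero `w a`, `a ∈ S` (nonempty by `hS'`), apply `exists_real` and put `ν f = σ (w f)`.
-/

namespace Pool.Agent.Helper59.RD

/-- a valuation centred at `P` with support `Q` -/
lemma b2b_valuation {R : Type} [CommRing R] (Q P : Ideal R) (hQ : Q.IsPrime) (hP : P.IsPrime)
    (hQP : Q ≤ P) :
    ∃ (Γ : Type) (_ : LinearOrderedCommGroupWithZero Γ) (w : Valuation R Γ),
      (∀ f, w f ≤ 1) ∧ (∀ f, w f = 0 ↔ f ∈ Q) ∧ (∀ f ∈ P, w f < 1) ∧ ∀ f, f ∉ P → w f = 1 := by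
  classical
  haveI := hQ
  haveI := hP
  let F := FractionRing (R ⧸ Q)
  let φ : R →+* F := (algebraMap (R ⧸ Q) F).comp (Ideal.Quotient.mk Q)
  have hker : ∀ a, φ a = 0 ↔ a ∈ Q := by
    intro a
    show algebraMap (R ⧸ Q) F (Ideal.Quotient.mk Q a) = 0 ↔ _
    rw [map_eq_zero_iff _ (IsFractionRing.injective (R ⧸ Q) F), Ideal.Quotient.eq_zero_iff_mem]
  have hunit : ∀ y : P.primeCompl, IsUnit (φ y) := by
    intro y
    rw [isUnit_iff_ne_zero]
    intro h
    exact y.2 (hQP ((hker _).mp h))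
  let ψ : Localization.AtPrime P →+* F := IsLocalization.lift (M := P.primeCompl) hunit
  have hψ : ∀ f, ψ (algebraMap R _ f) = φ f := fun f => IsLocalization.lift_eq hunit f
  obtain ⟨B, hle, hloc⟩ := (LocalSubring.range ψ).exists_le_valuationSubring
  have hmem : ∀ z, ψ z ∈ B := fun z => hle ⟨z, rfl⟩
  refine ⟨B.ValueGroup, inferInstance, B.valuation.comap φ, fun f => ?_, fun f => ?_,
    fun f hf => ?_, fun f hf => ?_⟩
  · show B.valuation (φ f) ≤ 1
    rw [ValuationSubring.valuation_le_one_iff, ← hψ]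
    exact hmem _
  · show B.valuation (φ f) = 0 ↔ _
    rw [Valuation.zero_iff, hker]
  · show B.valuation (φ f) < 1
    have h1 : B.valuation (φ f) ≤ 1 := by
      rw [ValuationSubring.valuation_le_one_iff, ← hψ]
      exact hmem _
    refine lt_of_le_of_ne h1 fun h2 => ?_
    have h3 : ψ (algebraMap R _ f) ∈ (LocalSubring.range ψ).toSubring := ⟨_, rfl⟩
    have h4 : IsUnit (Subring.inclusion hle ⟨ψ (algebraMap R _ f), h3⟩) := by
      have h5 : B.valuation (ψ (algebraMap R _ f)) = 1 := by rw [hψ]; exact h2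
      have h6 : ψ (algebraMap R _ f) ≠ 0 := by
        intro h7
        rw [h7, map_zero] at h5
        exact zero_ne_one h5
      have h7 : (ψ (algebraMap R _ f))⁻¹ ∈ B := by
        rw [← ValuationSubring.valuation_le_one_iff, map_inv₀, h5, inv_one]
      exact isUnit_iff_exists_inv.mpr ⟨⟨_, h7⟩, Subtype.ext (mul_inv_cancel₀ h6)⟩
    have h5 := hloc.map_nonunit _ h4
    obtain ⟨⟨_, z, rfl⟩, hz⟩ := isUnit_iff_exists_inv.mp h5
    have h6 : ψ (algebraMap R _ f) * ψ z = 1 := congrArg Subtype.val hz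
    rw [← map_mul] at h6
    have h7 : algebraMap R (Localization.AtPrime P) f * z ∈
        IsLocalRing.maximalIdeal (Localization.AtPrime P) := by
      refine Ideal.mul_mem_right _ _ ?_
      exact (IsLocalization.AtPrime.to_map_mem_maximal_iff _ P f).mpr hf
    have h8 : IsUnit (1 - algebraMap R (Localization.AtPrime P) f * z) :=
      IsLocalRing.isUnit_one_sub_self_of_mem_nonunits _ h7
    have h9 := h8.map ψ
    rw [map_sub, map_one, h6, sub_self] at h9
    exact not_isUnit_zero h9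
  · show B.valuation (φ f) = 1
    have h1 : IsUnit (algebraMap R (Localization.AtPrime P) f) :=
      IsLocalization.map_units _ (⟨f, hf⟩ : P.primeCompl)
    obtain ⟨z, hz⟩ := isUnit_iff_exists_inv.mp h1
    have h2 : φ f * ψ z = 1 := by rw [← hψ, ← map_mul, hz, map_one]
    have h3 : B.valuation (φ f) ≤ 1 := by
      rw [ValuationSubring.valuation_le_one_iff, ← hψ]
      exact hmem _
    have h4 : B.valuation (ψ z) ≤ 1 := by
      rw [ValuationSubring.valuation_le_one_iff]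
      exact hmem _
    have h5 : B.valuation (φ f) * B.valuation (ψ z) = 1 := by rw [← map_mul, h2, map_one]
    refine le_antisymm h3 ?_
    calc (1 : B.ValueGroup) = B.valuation (φ f) * B.valuation (ψ z) := h5.symm
      _ ≤ B.valuation (φ f) * 1 := mul_le_mul_right h4 _
      _ = _ := mul_one _

theorem exists_nu {R : Type} [CommRing R] (Q P : Ideal R) (hQ : Q.IsPrime) (hP : P.IsPrime)
    (hQP : Q ≤ P) (S : Finset R) (hS : ∀ a ∈ S, a ∈ P) (hS' : ∃ a ∈ S, a ∉ Q) (c : ℝ)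
    (hc : 0 < c) :
    ∃ ν : R → ℝ, (∀ a, 0 ≤ ν a) ∧ (∀ a, ν a ≤ 1) ∧ ν 0 = 0 ∧ ν 1 = 1 ∧
      (∀ a b, ν (a * b) = ν a * ν b) ∧ (∀ a b, ν (a + b) ≤ max (ν a) (ν b)) ∧
      (∀ a ∈ Q, ν a = 0) ∧ (∀ a, a ∉ P → ν a = 1) ∧ (∀ a ∈ S, ν a ≤ Real.exp (-c)) ∧
      ∃ a ∈ S, ν a = Real.exp (-c) := by
  classical
  obtain ⟨Γ, hΓ, w, hw1, hwQ, hwP, hwP'⟩ := b2b_valuation Q P hQ hP hQP
  have hne : (S.filter (fun a => a ∉ Q)).Nonempty := by
    obtain ⟨a, ha, ha'⟩ := hS'
    exact ⟨a, Finset.mem_filter.mpr ⟨ha, ha'⟩⟩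
  obtain ⟨a₀, ha₀, hmax⟩ := Finset.exists_max_image _ (fun a => w a) hne
  obtain ⟨ha₀S, ha₀Q⟩ := Finset.mem_filter.mp ha₀
  obtain ⟨σ, h01, hσ0, hσ1, hmul, hmono, hg⟩ := exists_real (w a₀)
    (fun h => ha₀Q ((hwQ _).mp h)) (hwP _ (hS _ ha₀S)) c hc
  have hle : ∀ a ∈ S, w a ≤ w a₀ := by
    intro a ha
    by_cases h : a ∈ Q
    · rw [(hwQ a).mpr h]
      exact zero_le
    · exact hmax a (Finset.mem_filter.mpr ⟨ha, h⟩)
  refine ⟨fun f => σ (w f), fun a => (h01 _ (hw1 a)).1, fun a => (h01 _ (hw1 a)).2, ?_, ?_,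
    fun a b => ?_, fun a b => ?_, fun a ha => ?_, fun a ha => ?_, fun a ha => ?_,
    a₀, ha₀S, hg⟩
  · simp only [map_zero]; exact hσ0
  · simp only [map_one]; exact hσ1
  · simp only [map_mul]; exact hmul _ _ (hw1 a) (hw1 b)
  · have h1 : w (a + b) ≤ max (w a) (w b) := w.map_add a b
    have h2 : σ (w (a + b)) ≤ σ (max (w a) (w b)) := hmono _ _ h1 (max_le (hw1 a) (hw1 b))
    refine h2.trans ?_
    rcases le_total (w a) (w b) with h | h
    · rw [max_eq_right h]; exact le_max_right _ _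
    · rw [max_eq_left h]; exact le_max_left _ _
  · show σ (w a) = 0
    rw [(hwQ a).mpr ha, hσ0]
  · show σ (w a) = 1
    rw [hwP' a ha, hσ1]
  · show σ (w a) ≤ _
    rw [← hg]
    exact hmono _ _ (hle a ha) (hw1 _)

end Pool.Agent.Helper59.RD
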