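import Mathlib

/-!
# RD-B3: the Gauss norm on power series over a ring with a bounded multiplicative seminorm

`gn ν r p = sup_k ν (coeff k p) * r ^ k`, `0 < r < 1`, `0 ≤ ν ≤ 1`.  The supremum is attained
(when it is positive only finitely many terms exceed half of it).  Multiplicativity: `≤` by the
nonarchimedean inequality; for `≥` take the smallest indices `i`, `j` at which the suprema for
`p`, `q` are attained: in `coeff (i + j) (p * q)` the term `(i, j)` is strictly larger than all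
the others.
-/

namespace Pool.Agent.Helper59.RD

/-- Gauss norm -/
noncomputable def gn {R : Type} [CommRing R] (ν : R → ℝ) (r : ℝ) (p : PowerSeries R) : ℝ :=
  ⨆ k : ℕ, ν (PowerSeries.coeff k p) * r ^ k

section

variable {R : Type} [CommRing R] (ν : R → ℝ) (hnn : ∀ a, 0 ≤ ν a) (h1 : ∀ a, ν a ≤ 1)
  (h0 : ν 0 = 0) (hone : ν 1 = 1) (hmul : ∀ a b, ν (a * b) = ν a * ν b)
  (hadd : ∀ a b, ν (a + b) ≤ max (ν a) (ν b)) (r : ℝ) (hr0 : 0 < r) (hr1 : r < 1)

include hnn h1 hr0 hr1

theorem gn_bdd (p : PowerSeries R) :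
    BddAbove (Set.range fun k : ℕ => ν (PowerSeries.coeff k p) * r ^ k) := by
  refine ⟨1, ?_⟩
  rintro _ ⟨k, rfl⟩
  have h2 : r ^ k ≤ 1 := pow_le_one₀ hr0.le hr1.le
  have h3 : 0 ≤ r ^ k := (pow_pos hr0 k).le
  have h4 := h1 (PowerSeries.coeff k p)
  have h5 := hnn (PowerSeries.coeff k p)
  show ν (PowerSeries.coeff k p) * r ^ k ≤ 1
  nlinarith

theorem le_gn (p : PowerSeries R) (k : ℕ) : ν (PowerSeries.coeff k p) * r ^ k ≤ gn ν r p := by
  exact le_ciSup (gn_bdd ν hnn h1 r hr0 hr1 p) k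

theorem gn_le (p : PowerSeries R) (B : ℝ) (hB : ∀ k, ν (PowerSeries.coeff k p) * r ^ k ≤ B) :
    gn ν r p ≤ B := by
  have _ := hnn
  have _ := h1
  have _ := hr0
  have _ := hr1
  exact ciSup_le hB

theorem gn_nonneg (p : PowerSeries R) : 0 ≤ gn ν r p := by
  have h2 := le_gn ν hnn h1 r hr0 hr1 p 0
  have h3 := hnn (PowerSeries.coeff 0 p)
  have h4 : 0 ≤ ν (PowerSeries.coeff 0 p) * r ^ 0 := by positivity
  linarith

theorem gn_attained (p : PowerSeries R) : ∃ k, ν (PowerSeries.coeff k p) * r ^ k = gn ν r p := by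
  have hnn2 : ∀ k, 0 ≤ ν (PowerSeries.coeff k p) * r ^ k := fun k =>
    mul_nonneg (hnn _) (pow_pos hr0 k).le
  rcases (gn_nonneg ν hnn h1 r hr0 hr1 p).eq_or_lt with h | h
  · refine ⟨0, le_antisymm (le_gn ν hnn h1 r hr0 hr1 p 0) ?_⟩
    rw [← h]
    exact hnn2 0
  · obtain ⟨N, hN⟩ := exists_pow_lt_of_lt_one (half_pos h) hr1
    obtain ⟨k, hk1, hk2⟩ := Finset.exists_max_image (Finset.range (N + 1))
      (fun k => ν (PowerSeries.coeff k p) * r ^ k) ⟨0, by simp⟩
    obtain ⟨j0, hj0⟩ := exists_lt_of_lt_ciSup (half_lt_self h)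
    have hsmall : ∀ j, N ≤ j → ν (PowerSeries.coeff j p) * r ^ j < gn ν r p / 2 := by
      intro j hj
      have h2 : r ^ j ≤ r ^ N := pow_le_pow_of_le_one hr0.le hr1.le hj
      have h3 : 0 ≤ r ^ j := (pow_pos hr0 j).le
      have h4 := h1 (PowerSeries.coeff j p)
      have h5 := hnn (PowerSeries.coeff j p)
      nlinarith
    have hj0N : j0 < N := by
      by_contra hcon
      push Not at hcon
      exact absurd (hsmall j0 hcon) (not_lt.2 hj0.le)
    have hk3 := hk2 j0 (Finset.mem_range.2 (by omega))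
    refine ⟨k, le_antisymm (le_gn ν hnn h1 r hr0 hr1 p k) ?_⟩
    refine gn_le ν hnn h1 r hr0 hr1 p _ fun j => ?_
    rcases Nat.lt_or_ge j (N + 1) with hj | hj
    · exact hk2 j (Finset.mem_range.2 hj)
    · have := hsmall j (by omega)
      exact (this.le.trans hj0.le).trans hk3

include h0 hone hmul hadd

theorem gn_one : gn ν r (1 : PowerSeries R) = 1 := by
  have _ := hmul
  have _ := hadd
  refine le_antisymm ?_ ?_
  · refine gn_le ν hnn h1 r hr0 hr1 _ _ fun k => ?_
    rw [PowerSeries.coeff_one]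
    split_ifs with h
    · subst h
      simp [hone]
    · rw [h0]
      simp
  · have h2 := le_gn ν hnn h1 r hr0 hr1 (1 : PowerSeries R) 0
    simpa [hone] using h2

theorem gn_add (p q : PowerSeries R) : gn ν r (p + q) ≤ max (gn ν r p) (gn ν r q) := by
  have _ := h0
  have _ := hone
  have _ := hmul
  refine gn_le ν hnn h1 r hr0 hr1 _ _ fun k => ?_
  rw [map_add]
  have h2 := hadd (PowerSeries.coeff k p) (PowerSeries.coeff k q)
  have h3 : 0 ≤ r ^ k := (pow_pos hr0 k).le
  have h4 := le_gn ν hnn h1 r hr0 hr1 p k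
  have h5 := le_gn ν hnn h1 r hr0 hr1 q k
  refine (mul_le_mul_of_nonneg_right h2 h3).trans ?_
  rw [max_mul_of_nonneg _ _ h3]
  exact max_le_max h4 h5

theorem nu_neg (a : R) : ν (-a) = ν a := by
  have _ := hnn
  have _ := h1
  have _ := h0
  have _ := hadd
  have _ := hr0
  have _ := hr1
  have h2 : ν (-1) * ν (-1) = 1 := by
    rw [← hmul]
    simpa using hone
  have h3 := hnn (-1)
  have h4 : ν (-1) = 1 := by nlinarith
  have h5 : ν (-a) = ν (-1) * ν a := by
    rw [← hmul]
    simp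
  rw [h5, h4, one_mul]

theorem nu_sum_le {ι : Type} (s : Finset ι) (f : ι → R) (B : ℝ) (hB0 : 0 ≤ B)
    (hB : ∀ i ∈ s, ν (f i) ≤ B) : ν (∑ i ∈ s, f i) ≤ B := by
  have _ := hnn
  have _ := h1
  have _ := hone
  have _ := hmul
  have _ := hr0
  have _ := hr1
  classical
  induction s using Finset.induction_on with
  | empty => simpa [h0] using hB0
  | insert a s ha ih =>
    rw [Finset.sum_insert ha]
    refine (hadd _ _).trans (max_le (hB a (Finset.mem_insert_self a s)) ?_)
    exact ih fun i hi => hB i (Finset.mem_insert_of_mem hi)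

theorem nu_sum_lt {ι : Type} (s : Finset ι) (f : ι → R) (B : ℝ) (hB0 : 0 < B)
    (hB : ∀ i ∈ s, ν (f i) < B) : ν (∑ i ∈ s, f i) < B := by
  have _ := hnn
  have _ := h1
  have _ := hone
  have _ := hmul
  have _ := hr0
  have _ := hr1
  classical
  induction s using Finset.induction_on with
  | empty => simpa [h0] using hB0
  | insert a s ha ih =>
    rw [Finset.sum_insert ha]
    refine (hadd _ _).trans_lt (max_lt (hB a (Finset.mem_insert_self a s)) ?_)
    exact ih fun i hi => hB i (Finset.mem_insert_of_mem hi)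

theorem gn_mul (p q : PowerSeries R) : gn ν r (p * q) = gn ν r p * gn ν r q := by
  have hp0 := gn_nonneg ν hnn h1 r hr0 hr1 p
  have hq0 := gn_nonneg ν hnn h1 r hr0 hr1 q
  have hterm : ∀ i j : ℕ, ν (PowerSeries.coeff i p * PowerSeries.coeff j q) * r ^ (i + j) =
      (ν (PowerSeries.coeff i p) * r ^ i) * (ν (PowerSeries.coeff j q) * r ^ j) := by
    intro i j
    rw [hmul, pow_add]
    ring
  have htn : ∀ (s : PowerSeries R) (k : ℕ), 0 ≤ ν (PowerSeries.coeff k s) * r ^ k := fun s k =>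
    mul_nonneg (hnn _) (pow_pos hr0 k).le
  refine le_antisymm ?_ ?_
  · refine gn_le ν hnn h1 r hr0 hr1 _ _ fun n => ?_
    rw [PowerSeries.coeff_mul]
    have hrn : 0 < r ^ n := pow_pos hr0 n
    rw [← le_div_iff₀ hrn]
    refine nu_sum_le ν hnn h1 h0 hone hmul hadd r hr0 hr1 _ _ _ (by positivity) ?_
    rintro ⟨i, j⟩ hij
    rw [Finset.HasAntidiagonal.mem_antidiagonal] at hij
    simp only at hij ⊢
    rw [le_div_iff₀ hrn, ← hij, hterm]
    exact mul_le_mul (le_gn ν hnn h1 r hr0 hr1 p i) (le_gn ν hnn h1 r hr0 hr1 q j) (htn q j) hp0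
  · rcases hp0.eq_or_lt with hp | hp
    · rw [← hp, zero_mul]
      exact gn_nonneg ν hnn h1 r hr0 hr1 _
    rcases hq0.eq_or_lt with hq | hq
    · rw [← hq, mul_zero]
      exact gn_nonneg ν hnn h1 r hr0 hr1 _
    classical
    have ep := gn_attained ν hnn h1 r hr0 hr1 p
    have eq := gn_attained ν hnn h1 r hr0 hr1 q
    obtain ⟨i, hi1, hi2⟩ : ∃ i, ν (PowerSeries.coeff i p) * r ^ i = gn ν r p ∧
        ∀ m < i, ν (PowerSeries.coeff m p) * r ^ m ≠ gn ν r p :=
      ⟨Nat.find ep, Nat.find_spec ep, fun m hm => Nat.find_min ep hm⟩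
    obtain ⟨j, hj1, hj2⟩ : ∃ j, ν (PowerSeries.coeff j q) * r ^ j = gn ν r q ∧
        ∀ m < j, ν (PowerSeries.coeff m q) * r ^ m ≠ gn ν r q :=
      ⟨Nat.find eq, Nat.find_spec eq, fun m hm => Nat.find_min eq hm⟩
    have hrn : 0 < r ^ (i + j) := pow_pos hr0 _
    have hmain : ν (PowerSeries.coeff i p * PowerSeries.coeff j q) =
        gn ν r p * gn ν r q / r ^ (i + j) := by
      rw [eq_div_iff hrn.ne', hterm, hi1, hj1]
    have hmem : ((i, j) : ℕ × ℕ) ∈ Finset.HasAntidiagonal.antidiagonal (i + j) := by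
      rw [Finset.HasAntidiagonal.mem_antidiagonal]
    have hsum : PowerSeries.coeff (i + j) (p * q) = PowerSeries.coeff i p * PowerSeries.coeff j q +
        ∑ x ∈ (Finset.HasAntidiagonal.antidiagonal (i + j)).erase (i, j),
          PowerSeries.coeff x.1 p * PowerSeries.coeff x.2 q := by
      rw [PowerSeries.coeff_mul]
      exact (Finset.add_sum_erase (Finset.HasAntidiagonal.antidiagonal (i + j))
        (fun x : ℕ × ℕ => PowerSeries.coeff x.1 p * PowerSeries.coeff x.2 q) hmem).symm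
    have hrest : ν (∑ x ∈ (Finset.HasAntidiagonal.antidiagonal (i + j)).erase (i, j),
        PowerSeries.coeff x.1 p * PowerSeries.coeff x.2 q) <
          ν (PowerSeries.coeff i p * PowerSeries.coeff j q) := by
      rw [hmain]
      refine nu_sum_lt ν hnn h1 h0 hone hmul hadd r hr0 hr1 _ _ _ (by positivity) ?_
      rintro ⟨a, b⟩ hab
      rw [Finset.mem_erase, Finset.HasAntidiagonal.mem_antidiagonal] at hab
      obtain ⟨hne, hab⟩ := hab
      simp only at hab hne ⊢
      rw [lt_div_iff₀ hrn, ← hab, hterm]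
      have h2 := le_gn ν hnn h1 r hr0 hr1 p a
      have h3 := le_gn ν hnn h1 r hr0 hr1 q b
      rcases Nat.lt_trichotomy a i with h | h | h
      · have h4 : ν (PowerSeries.coeff a p) * r ^ a < gn ν r p := lt_of_le_of_ne h2 (hi2 a h)
        nlinarith [htn p a, htn q b]
      · exfalso
        apply hne
        rw [Prod.mk.injEq]
        omega
      · have h4 : ν (PowerSeries.coeff b q) * r ^ b < gn ν r q :=
          lt_of_le_of_ne h3 (hj2 b (by omega))
        nlinarith [htn p a, htn q b]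
    have hfin : ν (PowerSeries.coeff i p * PowerSeries.coeff j q) ≤
        ν (PowerSeries.coeff (i + j) (p * q)) := by
      have h2 : PowerSeries.coeff i p * PowerSeries.coeff j q =
          PowerSeries.coeff (i + j) (p * q) +
            -∑ x ∈ (Finset.HasAntidiagonal.antidiagonal (i + j)).erase (i, j),
              PowerSeries.coeff x.1 p * PowerSeries.coeff x.2 q := by
        rw [hsum]
        ring
      have h3 := hadd (PowerSeries.coeff (i + j) (p * q))
        (-∑ x ∈ (Finset.HasAntidiagonal.antidiagonal (i + j)).erase (i, j),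
              PowerSeries.coeff x.1 p * PowerSeries.coeff x.2 q)
      rw [← h2, nu_neg ν hnn h1 h0 hone hmul hadd r hr0 hr1] at h3
      rcases le_max_iff.1 h3 with h4 | h4
      · exact h4
      · exact absurd hrest (not_lt.2 h4)
    have h5 := le_gn ν hnn h1 r hr0 hr1 (p * q) (i + j)
    refine le_trans ?_ h5
    rw [hmain] at hfin
    rw [← div_le_iff₀ hrn]
    exact hfin

end

end Pool.Agent.Helper59.RD
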