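import Mathlib

/-!
# RD-B4: the differential field with absolute value of a differential seminorm

The kernel `p = {f : μ f = 0}` is a prime ideal with `D p ⊆ p`.  `L` = fraction field of `R ⧸ p`.
The derivation `D` induces one on `R ⧸ p`, which extends to `L`: a convenient way is dual numbers:
the ring homomorphism `R ⧸ p → TrivSqZeroExt L L`, `a ↦ a + (D a) ε`, maps nonzero elements to
units, so it extends to `L` (`IsLocalization.lift`); take the second component.  The absolute
value: `v (a / b) = μ a / μ b` (for example by `IsLocalization.lift` for monoid homomorphisms with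
zero, or directly); `d (a / b) = (D a * b - a * D b) / b ^ 2` gives the bound.
-/

namespace Pool.Agent.Helper59.RD

/-- A derivation that preserves the kernel of a surjection onto a domain extends to the fraction
field of that domain. -/
theorem exists_deriv {R A L : Type} [CommRing R] [CommRing A] [IsDomain A] [Field L]
    [Algebra A L] [IsFractionRing A L] (D : Derivation ℤ R R) (q : R →+* A)
    (hq : Function.Surjective q) (hker : ∀ a, q a = 0 → q (D a) = 0) :
    ∃ d : Derivation ℤ L L, ∀ f, algebraMap A L (q (D f)) = d (algebraMap A L (q f)) := by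
  classical
  set φ : R →+* L := (algebraMap A L).comp q with hφdef
  have hφ : ∀ a, φ a = algebraMap A L (q a) := fun a => rfl
  have hone : D (1 : R) = 0 := D.map_one_eq_zero
  let ψ : R →+* TrivSqZeroExt L L :=
    { toFun := fun a => TrivSqZeroExt.inl (φ a) + TrivSqZeroExt.inr (φ (D a))
      map_one' := by
        rw [hone, map_one, map_zero]
        simp
      map_mul' := fun a b => by
        rw [Derivation.leibniz, map_mul, map_add, smul_eq_mul, smul_eq_mul, map_mul, map_mul]
        apply TrivSqZeroExt.ext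
        · simp
        · simp [TrivSqZeroExt.snd_mul]
          ring
      map_zero' := by
        rw [map_zero, map_zero, map_zero]
        simp
      map_add' := fun a b => by
        rw [map_add, map_add, map_add]
        apply TrivSqZeroExt.ext
        · simp
        · simp }
  have hψ : ∀ a : R, ψ a = TrivSqZeroExt.inl (φ a) + TrivSqZeroExt.inr (φ (D a)) := fun a => rfl
  have hψf : ∀ a : R, (ψ a).fst = φ a := fun a => by rw [hψ]; simp
  have hψs : ∀ a : R, (ψ a).snd = φ (D a) := fun a => by rw [hψ]; simp
  have hkerle : ∀ a : R, a ∈ RingHom.ker q → ψ a = 0 := by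
    intro a ha
    have ha' : q a = 0 := (RingHom.mem_ker).1 ha
    apply TrivSqZeroExt.ext
    · rw [hψf, hφ, ha', map_zero]; rfl
    · rw [hψs, hφ, hker a ha', map_zero]; rfl
  let ψA : A →+* TrivSqZeroExt L L := q.liftOfSurjective hq ⟨ψ, by
    intro a ha
    exact (RingHom.mem_ker).2 (hkerle a ha)⟩
  have hψA : ∀ a : R, ψA (q a) = ψ a := fun a => by
    exact RingHom.liftOfRightInverse_comp_apply q _ _ _ a
  have hψAfst : ∀ a : A, (ψA a).fst = algebraMap A L a := by
    intro a
    obtain ⟨r, rfl⟩ := hq a
    rw [hψA, hψf, hφ]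
  have hunit : ∀ y : nonZeroDivisors A, IsUnit (ψA y) := by
    intro y
    rw [TrivSqZeroExt.isUnit_iff_isUnit_fst, hψAfst]
    exact IsLocalization.map_units L y
  let Ψ : L →+* TrivSqZeroExt L L := IsLocalization.lift hunit
  have hΨ : ∀ a : A, Ψ (algebraMap A L a) = ψA a := fun a => IsLocalization.lift_eq hunit a
  have hΨfst : ∀ x : L, (Ψ x).fst = x := by
    intro x
    obtain ⟨a, b, hb, rfl⟩ := IsFractionRing.div_surjective (A := A) x
    have hb0 : algebraMap A L b ≠ 0 :=
      IsFractionRing.to_map_ne_zero_of_mem_nonZeroDivisors hb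
    have h1 : (Ψ (algebraMap A L a / algebraMap A L b)).fst * algebraMap A L b =
        algebraMap A L a := by
      have h2 : Ψ (algebraMap A L a / algebraMap A L b) * Ψ (algebraMap A L b) =
          Ψ (algebraMap A L a) := by
        rw [← map_mul, div_mul_cancel₀ _ hb0]
      have h3 := congrArg TrivSqZeroExt.fst h2
      rw [TrivSqZeroExt.fst_mul, hΨ, hΨ, hψAfst, hψAfst] at h3
      exact h3
    exact (eq_div_iff hb0).2 h1
  have hmulsnd : ∀ x y : L, (Ψ (x * y)).snd = x * (Ψ y).snd + y * (Ψ x).snd := by
    intro x y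
    rw [map_mul, TrivSqZeroExt.snd_mul, hΨfst, hΨfst, op_smul_eq_smul, smul_eq_mul, smul_eq_mul]
  have haddsnd : ∀ x y : L, (Ψ (x + y)).snd = (Ψ x).snd + (Ψ y).snd := by
    intro x y
    rw [map_add]
    rfl
  let D0 : L →+ L := AddMonoidHom.mk' (fun x => (Ψ x).snd) haddsnd
  let d : Derivation ℤ L L := Derivation.mk' D0.toIntLinearMap (by
      intro x y
      exact hmulsnd x y)
  have hd : ∀ x, d x = (Ψ x).snd := fun x => rfl
  refine ⟨d, fun f => ?_⟩
  rw [hd, hΨ, hψA, hψs, hφ]

/-- The valuation part: a valuation on the fraction field of the quotient by the support. -/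
theorem exists_abs {R : Type} [CommRing R] (μ : R → ℝ)
    (hnn : ∀ a, 0 ≤ μ a) (h0 : μ 0 = 0) (hone : μ 1 = 1) (hmul : ∀ a b, μ (a * b) = μ a * μ b)
    (hadd : ∀ a b, μ (a + b) ≤ max (μ a) (μ b)) :
    ∃ (A : Type) (_ : CommRing A) (_ : IsDomain A) (L : Type) (_ : Field L) (_ : Algebra A L)
      (_ : IsFractionRing A L) (q : R →+* A) (v : AbsoluteValue L ℝ),
      Function.Surjective q ∧ IsNonarchimedean v ∧ ∀ f, v (algebraMap A L (q f)) = μ f := by
  classical
  let w : Valuation R NNReal :=
    { toFun := fun a => ⟨μ a, hnn a⟩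
      map_zero' := by ext; exact h0
      map_one' := by ext; exact hone
      map_mul' := fun a b => by ext; exact hmul a b
      map_add_le_max' := fun a b => by
        rcases le_total (μ a) (μ b) with h | h
        · have : μ (a + b) ≤ μ b := (hadd a b).trans (max_le h le_rfl)
          exact le_max_of_le_right (NNReal.coe_le_coe.1 this)
        · have : μ (a + b) ≤ μ a := (hadd a b).trans (max_le le_rfl h)
          exact le_max_of_le_left (NNReal.coe_le_coe.1 this) }
  have hw : ∀ a, ((w a : NNReal) : ℝ) = μ a := fun a => rfl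
  clear_value w
  let p : Ideal R := w.supp
  have hp : p.IsPrime := inferInstanceAs (w.supp.IsPrime)
  let wq : Valuation (R ⧸ p) NNReal := w.onQuot le_rfl
  have hwq : ∀ a : R, wq (Ideal.Quotient.mk p a) = w a := fun a => rfl
  have hwqsupp : ∀ a : (R ⧸ p), wq a = 0 → a = 0 := by
    intro a ha
    obtain ⟨r, rfl⟩ := Ideal.Quotient.mk_surjective a
    rw [hwq] at ha
    exact Ideal.Quotient.eq_zero_iff_mem.2 ((Valuation.mem_supp_iff w r).2 ha)
  have hS : nonZeroDivisors (R ⧸ p) ≤ wq.supp.primeCompl := by
    intro a ha h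
    exact nonZeroDivisors.ne_zero ha (hwqsupp a ((Valuation.mem_supp_iff wq a).1 h))
  let wL : Valuation (FractionRing (R ⧸ p)) NNReal := wq.extendToLocalization hS _
  have hwL : ∀ a : (R ⧸ p), wL (algebraMap (R ⧸ p) (FractionRing (R ⧸ p)) a) = wq a := fun a =>
    Valuation.extendToLocalization_apply_map_apply wq hS _ a
  clear_value wL
  let v : AbsoluteValue (FractionRing (R ⧸ p)) ℝ :=
    { toFun := fun x => ((wL x : NNReal) : ℝ)
      map_mul' := fun x y => by rw [map_mul]; exact NNReal.coe_mul _ _
      nonneg' := fun x => NNReal.coe_nonneg _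
      eq_zero' := fun x => by
        rw [NNReal.coe_eq_zero, Valuation.zero_iff]
      add_le' := fun x y => by
        have h := wL.map_add x y
        have h1 : wL (x + y) ≤ wL x + wL y :=
          h.trans (max_le (le_add_of_nonneg_right zero_le) (le_add_of_nonneg_left zero_le))
        exact_mod_cast h1 }
  have hv : ∀ x, v x = ((wL x : NNReal) : ℝ) := fun x => rfl
  have hvna : IsNonarchimedean v := by
    intro x y
    have h := wL.map_add x y
    rw [hv, hv, hv]
    exact_mod_cast h
  exact ⟨R ⧸ p, inferInstance, inferInstance, FractionRing (R ⧸ p), inferInstance, inferInstance,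
    inferInstance, Ideal.Quotient.mk p, v, Ideal.Quotient.mk_surjective, hvna,
    fun f => by rw [hv, hwL, hwq, hw]⟩

theorem exists_field {R : Type} [CommRing R] (D : Derivation ℤ R R) (μ : R → ℝ)
    (hnn : ∀ a, 0 ≤ μ a) (h0 : μ 0 = 0) (hone : μ 1 = 1) (hmul : ∀ a b, μ (a * b) = μ a * μ b)
    (hadd : ∀ a b, μ (a + b) ≤ max (μ a) (μ b)) (M : ℝ) (hM : 1 ≤ M)
    (hD : ∀ a, μ (D a) ≤ M * μ a) :
    ∃ (L : Type) (_ : Field L) (d : Derivation ℤ L L) (φ : R →+* L) (v : AbsoluteValue L ℝ),
      IsNonarchimedean v ∧ (∀ f, φ (D f) = d (φ f)) ∧ (∀ f, v (φ f) = μ f) ∧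
      (∀ a, v (d a) ≤ M * v a) := by
  obtain ⟨A, _, _, L, _, _, _, q, v, hq, hvna, hvq⟩ := exists_abs μ hnn h0 hone hmul hadd
  have hker : ∀ a, q a = 0 → q (D a) = 0 := by
    intro a ha
    have h1 : μ a = 0 := by rw [← hvq, ha, map_zero, map_zero]
    have h2 : μ (D a) = 0 := by
      have := hD a
      rw [h1, mul_zero] at this
      exact le_antisymm this (hnn _)
    have h3 : v (algebraMap A L (q (D a))) = 0 := by rw [hvq, h2]
    exact IsFractionRing.injective A L (by rw [(AbsoluteValue.eq_zero v).1 h3, map_zero])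
  obtain ⟨d, hd⟩ := exists_deriv (L := L) D q hq hker
  refine ⟨L, inferInstance, d, (algebraMap A L).comp q, v, hvna, hd, hvq, ?_⟩
  intro x
  obtain ⟨a', b', hb', hx⟩ := IsFractionRing.div_surjective (A := A) x
  obtain ⟨a, rfl⟩ := hq a'
  obtain ⟨b, rfl⟩ := hq b'
  have hb0 : algebraMap A L (q b) ≠ 0 :=
    IsFractionRing.to_map_ne_zero_of_mem_nonZeroDivisors hb'
  have hvb : 0 < v (algebraMap A L (q b)) := AbsoluteValue.pos v hb0
  have hab : algebraMap A L (q a) = x * algebraMap A L (q b) := by
    rw [← hx, div_mul_cancel₀ _ hb0]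
  have hda : d (algebraMap A L (q a)) =
      x * d (algebraMap A L (q b)) + algebraMap A L (q b) * d x := by
    rw [hab, Derivation.leibniz]
    rfl
  have hdx : d x * algebraMap A L (q b) =
      algebraMap A L (q (D a)) - x * algebraMap A L (q (D b)) := by
    rw [hd, hd, hda]; ring
  have h1 : v (d x) * v (algebraMap A L (q b)) =
      v (algebraMap A L (q (D a)) - x * algebraMap A L (q (D b))) := by
    rw [← hdx, map_mul]
  have h2 : v (algebraMap A L (q (D a)) - x * algebraMap A L (q (D b))) ≤
      max (v (algebraMap A L (q (D a)))) (v (x * algebraMap A L (q (D b)))) := by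
    have h := hvna (algebraMap A L (q (D a))) (-(x * algebraMap A L (q (D b))))
    rw [AbsoluteValue.map_neg] at h
    rw [sub_eq_add_neg]
    exact h
  have hva : v (algebraMap A L (q a)) = v x * v (algebraMap A L (q b)) := by rw [hab, map_mul]
  have h3 : v (algebraMap A L (q (D a))) ≤ M * (v x * v (algebraMap A L (q b))) := by
    rw [← hva, hvq, hvq]; exact hD a
  have h4 : v (x * algebraMap A L (q (D b))) ≤ M * (v x * v (algebraMap A L (q b))) := by
    rw [map_mul]
    have h5 : v (algebraMap A L (q (D b))) ≤ M * v (algebraMap A L (q b)) := by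
      rw [hvq, hvq]; exact hD b
    calc v x * v (algebraMap A L (q (D b))) ≤ v x * (M * v (algebraMap A L (q b))) :=
          mul_le_mul_of_nonneg_left h5 (AbsoluteValue.nonneg v x)
      _ = M * (v x * v (algebraMap A L (q b))) := by ring
  have h6 : v (d x) * v (algebraMap A L (q b)) ≤ (M * v x) * v (algebraMap A L (q b)) := by
    rw [h1]
    refine h2.trans ((max_le h3 h4).trans (le_of_eq (by ring)))
  exact le_of_mul_le_mul_right h6 hvb

end Pool.Agent.Helper59.RD
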