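import Mathlib

/-!
# RD-B0: the Taylor homomorphism of a differential ring

`T f = ∑ k, (D^k f / k!) t ^ k` is a ring homomorphism `R → R[[t]]` (Leibniz rule, induction on
the order).
-/

namespace Pool.Agent.Helper59.RD

theorem exists_taylor {R : Type} [CommRing R] [Algebra ℚ R] (D : Derivation ℤ R R) :
    ∃ T : R →+* PowerSeries R, ∀ (f : R) (k : ℕ),
      PowerSeries.coeff k (T f) = (1 / (k.factorial : ℚ)) • ((⇑D)^[k] f) := by
  sorry

end Pool.Agent.Helper59.RD
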