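import Mathlib

/-!
# RD-B2a: the real standard part of a valuation relative to an element `g`

For `a ≤ 1` put `σ a = inf {exp (-(c * p / q)) : q > 0, a ^ q ≤ g ^ p}` (natural numbers `p, q`;
`p = 0, q = 1` is allowed), that is, `σ a = exp (-c * st a)` with
`st a = sup {p / q : a ^ q ≤ g ^ p}` in `[0, ∞]`.  Monotone: clear.  `σ g = exp (-c)` because
`g ^ q ≤ g ^ p` iff `p ≤ q`.  `σ (a * b) ≤ σ a * σ b`: `a ^ q ≤ g ^ p`, `b ^ s ≤ g ^ r` give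
`(a * b) ^ (q * s) ≤ g ^ (p * s + r * q)`.  `σ (a * b) ≥ σ a * σ b`: let `σ a, σ b > 0` (else
trivial), let `N > 0` and let `i, j` be maximal with `a ^ N ≤ g ^ i`, `b ^ N ≤ g ^ j` (they exist
because `σ a, σ b > 0`); then `(a * b) ^ N > g ^ (i + j + 2)`, so `(a * b) ^ q ≤ g ^ p` implies
`p * N < q * (i + j + 2)`, i.e. `p / q < i / N + j / N + 2 / N`; let `N → ∞`.
-/

namespace Pool.Agent.Helper59.RD

theorem exists_real {Γ : Type} [LinearOrderedCommGroupWithZero Γ] (g : Γ) (hg0 : g ≠ 0)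
    (hg1 : g < 1) (c : ℝ) (hc : 0 < c) :
    ∃ σ : Γ → ℝ, (∀ a, a ≤ 1 → 0 ≤ σ a ∧ σ a ≤ 1) ∧ σ 0 = 0 ∧ σ 1 = 1 ∧
      (∀ a b, a ≤ 1 → b ≤ 1 → σ (a * b) = σ a * σ b) ∧
      (∀ a b, a ≤ b → b ≤ 1 → σ a ≤ σ b) ∧ σ g = Real.exp (-c) := by
  sorry

end Pool.Agent.Helper59.RD
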